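import Mathlib
import Pool.Agent.Y57.AK.Stm3

/-!
Project AK, job AK-DIM1: the dimension count, multiplicity one at `D`
(adapted from the file of helper983 for AK-DIM).
-/

set_option autoImplicit false

open Finset

namespace Pool.Agent.Y759.AK

open Pool.Agent.Y57.AK

/-- `f (p + x)` as a linear map -/
noncomputable def shl {ι : Type} (p : ι → ℚ) : MvPolynomial ι ℚ →ₗ[ℚ] MvPolynomial ι ℚ :=
  (MvPolynomial.aeval (fun i => MvPolynomial.X i + MvPolynomial.C (p i))).toLinearMap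

/-- the coefficients of `f (p + x)` for `p ∈ E` and `β ∈ B`, for polynomials of degree `≤ m` -/
noncomputable def Ph {ι : Type} (m : ℕ) (E : Finset (ι → ℚ)) (B : Finset (ι →₀ ℕ)) :
    MvPolynomial.restrictTotalDegree ι ℚ m →ₗ[ℚ] ({e // e ∈ E} × {β // β ∈ B} → ℚ) :=
  LinearMap.pi fun p => (MvPolynomial.lcoeff ℚ p.2.1) ∘ₗ (shl p.1.1) ∘ₗ
    (MvPolynomial.restrictTotalDegree ι ℚ m).subtype

theorem Ph_apply {ι : Type} (m : ℕ) (E : Finset (ι → ℚ)) (B : Finset (ι →₀ ℕ))
    (f : MvPolynomial.restrictTotalDegree ι ℚ m) (p : {e // e ∈ E} × {β // β ∈ B}) :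
    Ph m E B f p = (sh p.1.1 f.1).coeff p.2.1 := rfl

theorem coeff_sh {ι : Type} (d : ι → ℚ) (f : MvPolynomial ι ℚ) :
    (sh d f).coeff 0 = MvPolynomial.eval d f := by
  rw [← MvPolynomial.constantCoeff_eq]
  have h : (MvPolynomial.constantCoeff.comp
      ((MvPolynomial.aeval (fun i => MvPolynomial.X i + MvPolynomial.C (d i)) :
        MvPolynomial ι ℚ →ₐ[ℚ] MvPolynomial ι ℚ) : MvPolynomial ι ℚ →+* MvPolynomial ι ℚ)) =
      MvPolynomial.eval d := by
    apply MvPolynomial.ringHom_ext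
    · intro r
      simp
    · intro i
      simp
  exact RingHom.congr_fun h f

theorem t_DIM1 (hL : S_LINE) (hC : S_CARD) : S_DIM1 := by
  classical
  intro ι _ _ m l D v J hI hl hlt
  obtain ⟨cl, ml⟩ := hC ι l hl
  set E : Finset (ι → ℚ) := J.biUnion (fun s => D.image fun d i => d i + s * v d i) with hE
  have hEc : E.card ≤ ∑ s ∈ J, (D.image fun d i => d i + s * v d i).card := card_biUnion_le
  let ΦD := Ph m D ({0} : Finset (ι →₀ ℕ))
  let ΦE := Ph m E (mon ι l)
  have hker : LinearMap.ker ΦE ≤ LinearMap.ker ΦD := by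
    intro f hf
    rw [LinearMap.mem_ker] at hf ⊢
    funext p
    obtain ⟨⟨d, hd⟩, β, hβ⟩ := p
    have hfd : (f.1).totalDegree ≤ m := (MvPolynomial.mem_restrictTotalDegree ι m f.1).mp f.2
    have hv : Van 1 d f.1 := by
      refine hL ι J d (v d) m l 1 f.1 hfd ?_ (by simpa using hlt)
      intro s hs β' hβ'
      have he : (fun i => d i + s * v d i) ∈ E :=
        mem_biUnion.mpr ⟨s, hs, mem_image.mpr ⟨d, hd, rfl⟩⟩
      have h1 := congrFun hf (⟨_, he⟩, ⟨β', (ml β').mpr hβ'⟩)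
      exact h1
    have hβ0 : β = 0 := mem_singleton.mp hβ
    exact hv β (by rw [hβ0]; simp)
  have hsurj : Function.Surjective ΦD := by
    intro u
    obtain ⟨f, hf1, hf2⟩ := hI (fun p =>
      if h : p ∈ D then u (⟨p, h⟩, ⟨0, mem_singleton_self 0⟩) else 0)
    refine ⟨⟨f, (MvPolynomial.mem_restrictTotalDegree ι m f).mpr hf1⟩, ?_⟩
    funext p
    obtain ⟨⟨d, hd⟩, β, hβ⟩ := p
    have hβ0 : β = 0 := mem_singleton.mp hβ
    subst hβ0
    have h1 := hf2 d hd
    rw [dif_pos hd, ← coeff_sh] at h1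
    exact h1
  have hfin : Module.Finite ℚ (MvPolynomial.restrictTotalDegree ι ℚ m ⧸ LinearMap.ker ΦE) :=
    Module.Finite.equiv ΦE.quotKerEquivRange.symm
  have hq : Function.Surjective ((LinearMap.ker ΦE).liftQ ΦD hker) := by
    intro u
    obtain ⟨f, hf⟩ := hsurj u
    exact ⟨Submodule.Quotient.mk f, hf⟩
  have h1 := LinearMap.finrank_le_finrank_of_surjective hq
  have h2 : Module.finrank ℚ (MvPolynomial.restrictTotalDegree ι ℚ m ⧸ LinearMap.ker ΦE) ≤
      Module.finrank ℚ ({e // e ∈ E} × {β // β ∈ mon ι l} → ℚ) := by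
    rw [ΦE.quotKerEquivRange.finrank_eq]
    exact Submodule.finrank_le _
  have h3 := h1.trans h2
  rw [Module.finrank_fintype_fun_eq_card, Module.finrank_fintype_fun_eq_card, Fintype.card_prod,
    Fintype.card_prod, Fintype.card_coe, Fintype.card_coe, Fintype.card_coe, Fintype.card_coe,
    cl, card_singleton, mul_one] at h3
  exact h3.trans (Nat.mul_le_mul_right _ hEc)

end Pool.Agent.Y759.AK
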